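import Pool.Agent.Lib.MP_0ba2dd_ag.N.H45Fin

/-! The Kuznetsov component of a smooth cubic hypersurface of dimension `3 m` is indecomposable. -/

namespace Pool.Agent.Results.MP_0ba2dd_ag.KuCubicDimThreeM

open CategoryTheory MvPolynomial Pool.Agent.Lib.MP_0ba2dd_ag.N

universe u w

theorem result (k : Type u) [Field k] [IsAlgClosed k] (h2 : (2 : k) ≠ 0) (h3 : (3 : k) ≠ 0)
    (m : ℕ) (hm : 1 ≤ m) (f : MvPolynomial (Fin (3 * m + 2)) k) [Fact (f.IsHomogeneous 3)]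
    (smooth : ∀ p : Fin (3 * m + 2) → k, eval p f = 0 → (∀ i, eval p (pderiv i f) = 0) → p = 0)
    [HasDerivedCategory.{w} (CohSh (Hyp f))] :
    Indecomposable (KuOf (twO f) (3 * m - 1)) := by
  let _ : Dim := ⟨3 * m + 2⟩
  have : Big := ⟨show 5 ≤ 3 * m + 2 by omega⟩
  have h := indecomposable_coh (f := f) h2 h3 smooth (show ((3 * m + 2 : ℕ) : ZMod 3) = 2 by
    push_cast
    rw [show (3 : ZMod 3) = 0 from rfl, zero_mul, zero_add])
  rwa [show ((nv : ℕ) : ℤ) - 3 = 3 * m - 1 by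
    change ((3 * m + 2 : ℕ) : ℤ) - 3 = _
    push_cast
    ring] at h

end Pool.Agent.Results.MP_0ba2dd_ag.KuCubicDimThreeM
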